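import Pool.Agent.Helper82.Triangle.Main

/-!
# Boundary overlap ratio for congruent triangles: the value csc(theta/2) is not the maximum

For the 3-4-5 right triangle there is a copy (obtained by a rotation and a translation) in
general position whose boundary overlap ratio is larger than csc(theta/2). The plane is `ℂ`. The
definitions are in `Pool.Agent.Helper82.Triangle.Defs`.
-/

namespace Pool.Agent.Results.MP_071e18_gt.TriangleRatioDisproof

open Pool.Agent.Helper82.Triangle

/-- There is a (nondegenerate) triangle `T` with smallest angle `θ` such that
`M(T) > csc (θ/2)`; in fact the value `csc (θ/2)` is already exceeded by an overlapping pair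
`T, a T + t` with `|a| = 1`, so that `a T + t` is obtained by a rotation followed by a
translation. -/
theorem result : ∃ v : Fin 3 → ℂ, AffineIndependent ℝ v ∧
    ENNReal.ofReal (1 / Real.sin (smallestAngle v / 2)) < maxRatio (triangle v) ∧
    ∃ a t : ℂ, ‖a‖ = 1 ∧ Overlap (triangle v) ((fun z => a * z + t) '' triangle v) ∧
      ENNReal.ofReal (1 / Real.sin (smallestAngle v / 2)) <
        overlapRatio (triangle v) ((fun z => a * z + t) '' triangle v) :=
  main

end Pool.Agent.Results.MP_071e18_gt.TriangleRatioDisproof
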